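import Pool.Agent.Helper10.RC.Basic

/-!
# MP_b55b7c_an, packet RC-Ped: factorisation of matrices below `z* z`
-/

open scoped ENNReal NNReal InnerProductSpace ComplexOrder
open Filter Topology

attribute [-instance] CStarMatrix.instAlgebra CStarMatrix.instModule CStarMatrix.instSMul
  CStarMatrix.instMulAction CStarMatrix.instDistribMulAction

set_option linter.unusedSectionVars false

noncomputable section
namespace RC
universe u

section
variable {D : Type u} [CStarAlgebra D] [PartialOrder D] [StarOrderedRing D]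

theorem ped_key {P Q : D} (hP : 0 ≤ P) (hPQ : P ≤ Q) : ∃ s : D, IsSelfAdjoint s ∧ s * s = P ∧
    ∀ g : ℝ → ℝ, Continuous g → ∀ c : ℝ, 0 ≤ c → (∀ t, 0 ≤ t → g t * t * g t ≤ c ^ 2) →
      ‖s * cfc g Q‖ ≤ c := by
  have hQ : 0 ≤ Q := hP.trans hPQ
  refine ⟨CFC.sqrt P, (CFC.sqrt_nonneg P).isSelfAdjoint, CFC.sqrt_mul_sqrt_self P hP, ?_⟩
  intro g hg c hc h
  set s := CFC.sqrt P with hs
  have hsa : star s = s := (CFC.sqrt_nonneg P).isSelfAdjoint
  have hGsa : star (cfc g Q) = cfc g Q := (cfc_predicate g Q : IsSelfAdjoint (cfc g Q))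
  have e1 : star (s * cfc g Q) * (s * cfc g Q) = star (cfc g Q) * P * cfc g Q := by
    rw [star_mul, hsa, mul_assoc, ← mul_assoc s s, CFC.sqrt_mul_sqrt_self P hP, mul_assoc]
  have e2 : ‖s * cfc g Q‖ * ‖s * cfc g Q‖ = ‖star (cfc g Q) * P * cfc g Q‖ := by
    rw [← e1, CStarRing.norm_star_mul_self]
  have e3 : star (cfc g Q) * P * cfc g Q ≤ star (cfc g Q) * Q * cfc g Q :=
    star_left_conjugate_le_conjugate hPQ _
  have e4 : 0 ≤ star (cfc g Q) * P * cfc g Q := star_left_conjugate_nonneg hP _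
  have e5 : star (cfc g Q) * Q * cfc g Q = cfc (fun t => g t * t * g t) Q := by
    rw [hGsa]
    conv_lhs => rw [← cfc_id' ℝ Q]
    rw [cfc_id' ℝ Q, cfc_mul (fun t => g t * t) g Q, cfc_mul g (fun t => t) Q, cfc_id' ℝ Q]
  have e6 : ‖cfc (fun t => g t * t * g t) Q‖ ≤ c ^ 2 := by
    refine norm_cfc_le (by positivity) fun t ht => ?_
    have ht0 := spectrum_nonneg_of_nonneg hQ ht
    rw [Real.norm_eq_abs, abs_of_nonneg]
    · exact h t ht0
    · have : g t * t * g t = (g t) ^ 2 * t := by ring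
      rw [this]; positivity
  have e7 : ‖s * cfc g Q‖ * ‖s * cfc g Q‖ ≤ c ^ 2 := by
    rw [e2]
    refine (CStarAlgebra.norm_le_norm_of_nonneg_of_le e4 e3).trans ?_
    rw [e5]
    exact e6
  have := norm_nonneg (s * cfc g Q)
  nlinarith

end

/-- the approximating functions -/
def kf (n : ℕ) (t : ℝ) : ℝ := (Real.sqrt t + ((n : ℝ) + 1)⁻¹)⁻¹

theorem kf_cont (n : ℕ) : Continuous (kf n) := by
  unfold kf
  refine Continuous.inv₀ (by fun_prop) fun t => ?_
  have := Real.sqrt_nonneg t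
  positivity

theorem kf_bound (n : ℕ) (t : ℝ) (ht : 0 ≤ t) :
    ∃ θ : ℝ, 0 ≤ θ ∧ θ ≤ 1 ∧ kf n t * t = Real.sqrt t - θ * ((n : ℝ) + 1)⁻¹ := by
  have h0 := Real.sqrt_nonneg t
  have h1 := Real.mul_self_sqrt ht
  have h2 : 0 < ((n : ℝ) + 1)⁻¹ := by positivity
  have h3 : 0 < Real.sqrt t + ((n : ℝ) + 1)⁻¹ := by positivity
  refine ⟨Real.sqrt t / (Real.sqrt t + ((n : ℝ) + 1)⁻¹), by positivity, ?_, ?_⟩
  · rw [div_le_one h3]; linarith
  · unfold kf
    set r := Real.sqrt t
    set δ := ((n : ℝ) + 1)⁻¹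
    rw [← h1]
    field_simp
    ring

variable {A : Type u} [CStarAlgebra A] [PartialOrder A] [StarOrderedRing A]
variable {ι κ μ ν : Type} [Fintype ι] [DecidableEq ι] [Fintype κ] [DecidableEq κ]
  [Fintype μ] [DecidableEq μ] [Fintype ν] [DecidableEq ν]

theorem cm_norm_sq_le (x : CStarMatrix ι κ A) : ‖x‖ ^ 2 ≤ ‖x * x.conjTranspose‖ := by
  have hC : (0 : ℝ) ≤ Real.sqrt ‖x * x.conjTranspose‖ := Real.sqrt_nonneg _
  have key : ‖x‖ ≤ Real.sqrt ‖x * x.conjTranspose‖ := by
    rw [CStarMatrix.norm_def]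
    refine ContinuousLinearMap.opNorm_le_bound _ hC fun v => ?_
    have h1 : ‖CStarMatrix.toCLM x v‖ ^ 2 = ‖⟪CStarMatrix.toCLM x v, CStarMatrix.toCLM x v⟫_A‖ :=
      CStarModule.norm_sq_eq A
    have h2 : ⟪CStarMatrix.toCLM x v, CStarMatrix.toCLM x v⟫_A =
        ⟪v, CStarMatrix.toCLM x.conjTranspose (CStarMatrix.toCLM x v)⟫_A :=
      CStarMatrix.inner_toCLM_conjTranspose_right.symm
    have h3 : CStarMatrix.toCLM x.conjTranspose (CStarMatrix.toCLM x v) =
        CStarMatrix.toCLM (x * x.conjTranspose) v := by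
      ext i
      simp only [CStarMatrix.toCLM_apply]
      show _ = Matrix.vecMul _ (CStarMatrix.ofMatrix.symm x *
        CStarMatrix.ofMatrix.symm x.conjTranspose) i
      rw [← Matrix.vecMul_vecMul]
      rfl
    have h4 : ‖CStarMatrix.toCLM x v‖ ^ 2 ≤ ‖x * x.conjTranspose‖ * ‖v‖ ^ 2 := by
      rw [h1, h2, h3]
      refine (CStarModule.norm_inner_le _).trans ?_
      have := (CStarMatrix.toCLM (x * x.conjTranspose)).le_opNorm v
      rw [← CStarMatrix.norm_def] at this
      calc ‖v‖ * ‖CStarMatrix.toCLM (x * x.conjTranspose) v‖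
          ≤ ‖v‖ * (‖x * x.conjTranspose‖ * ‖v‖) := by gcongr
        _ = _ := by ring
    rw [← Real.sqrt_sq (norm_nonneg v), ← Real.sqrt_mul (norm_nonneg _),
      ← Real.sqrt_sq (norm_nonneg (CStarMatrix.toCLM x v))]
    exact Real.sqrt_le_sqrt h4
  calc ‖x‖ ^ 2 ≤ (Real.sqrt ‖x * x.conjTranspose‖) ^ 2 := by gcongr
    _ = _ := Real.sq_sqrt (norm_nonneg _)

theorem ped_sq {D : Type u} [CStarAlgebra D] [PartialOrder D] [StarOrderedRing D] (Q : D)
    (hQ : 0 ≤ Q) (f : ℝ → ℝ) (hf : Continuous f) :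
    cfc f Q * Q * cfc f Q =
      cfc (fun t => f t * Real.sqrt t) Q * cfc (fun t => f t * Real.sqrt t) Q := by
  have h1 : cfc f Q * Q * cfc f Q = cfc (fun t => f t * t * f t) Q := by
    rw [cfc_mul (fun t => f t * t) f Q, cfc_mul f (fun t => t) Q, cfc_id' ℝ Q]
  rw [h1, ← cfc_mul (fun t => f t * Real.sqrt t) (fun t => f t * Real.sqrt t) Q]
  refine cfc_congr fun t ht => ?_
  have ht0 := spectrum_nonneg_of_nonneg hQ ht
  have := Real.mul_self_sqrt ht0
  calc f t * t * f t = f t * (Real.sqrt t * Real.sqrt t) * f t := by rw [this]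
    _ = _ := by ring

theorem pedP : PedP.{u} := by
  intro A _ _ _ ι κ _ _ _ _ P z hP hPQ
  set Q : CStarMatrix ι ι A := z.conjTranspose * z with hQdef
  have hQ : 0 ≤ Q := hP.trans hPQ
  obtain ⟨s, hs, hss, hkey⟩ := ped_key hP hPQ
  -- the identity for `x = s f(Q) z*`
  have hX : ∀ f : ℝ → ℝ, Continuous f →
      (s * cfc f Q * z.conjTranspose) * (s * cfc f Q * z.conjTranspose).conjTranspose =
        (s * cfc (fun t => f t * Real.sqrt t) Q) * star (s * cfc (fun t => f t * Real.sqrt t) Q) := by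
    intro f hf
    have hsa : star s = s := hs
    have hfsa : star (cfc f Q) = cfc f Q := (cfc_predicate f Q : IsSelfAdjoint (cfc f Q))
    have hgsa : star (cfc (fun t => f t * Real.sqrt t) Q) = cfc (fun t => f t * Real.sqrt t) Q :=
      (cfc_predicate _ Q : IsSelfAdjoint (cfc (fun t => f t * Real.sqrt t) Q))
    rw [cm_conj_mul, cm_conj_conj, cm_star_eq, star_mul, star_mul, hsa, hfsa, hgsa]
    have hzz : ∀ w : CStarMatrix ι ι A, z.conjTranspose * (z * w) = Q * w := fun w =>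
      (cm_assoc _ _ _).symm
    calc s * cfc f Q * z.conjTranspose * (z * (cfc f Q * s))
        = s * cfc f Q * (z.conjTranspose * (z * (cfc f Q * s))) := cm_assoc _ _ _
      _ = s * cfc f Q * (Q * (cfc f Q * s)) := by rw [hzz]
      _ = s * (cfc f Q * Q * cfc f Q) * s := by noncomm_ring
      _ = _ := by rw [ped_sq Q hQ f hf]; noncomm_ring
  set L : ℕ → CStarMatrix ι κ A := fun n => s * cfc (kf n) Q * z.conjTranspose with hL
  -- the sequence is Cauchy
  have hdist : ∀ n m : ℕ, ‖L n - L m‖ ≤ ((n : ℝ) + 1)⁻¹ + ((m : ℝ) + 1)⁻¹ := by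
    intro n m
    have hn : 0 < ((n : ℝ) + 1)⁻¹ := by positivity
    have hm : 0 < ((m : ℝ) + 1)⁻¹ := by positivity
    have hc : Continuous fun t => kf n t - kf m t := (kf_cont n).sub (kf_cont m)
    have e0 : L n - L m = s * cfc (fun t => kf n t - kf m t) Q * z.conjTranspose := by
      rw [cfc_sub (kf n) (kf m) Q (kf_cont n).continuousOn (kf_cont m).continuousOn, mul_sub,
        cm_sub_mul]
    have e1 := hX _ hc
    have e2 : ‖s * cfc (fun t => (kf n t - kf m t) * Real.sqrt t) Q‖ ≤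
        ((n : ℝ) + 1)⁻¹ + ((m : ℝ) + 1)⁻¹ := by
      refine hkey (fun t => (kf n t - kf m t) * Real.sqrt t) (hc.mul Real.continuous_sqrt) _
        (by positivity) fun t ht => ?_
      obtain ⟨θ, h1, h2, h3⟩ := kf_bound n t ht
      obtain ⟨θ', h1', h2', h3'⟩ := kf_bound m t ht
      have h4 : (kf n t - kf m t) * Real.sqrt t * t * ((kf n t - kf m t) * Real.sqrt t) =
          (kf n t * t - kf m t * t) ^ 2 := by
        have := Real.mul_self_sqrt ht
        calc _ = (kf n t - kf m t) ^ 2 * t * (Real.sqrt t * Real.sqrt t) := by ring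
          _ = _ := by rw [this]; ring
      rw [h4, h3, h3']
      have h5 : |(Real.sqrt t - θ * ((n : ℝ) + 1)⁻¹) - (Real.sqrt t - θ' * ((m : ℝ) + 1)⁻¹)| ≤
          ((n : ℝ) + 1)⁻¹ + ((m : ℝ) + 1)⁻¹ := by
        rw [abs_le]
        constructor <;> nlinarith [mul_nonneg h1 hn.le, mul_nonneg h1' hm.le,
          mul_nonneg (sub_nonneg.2 h2) hn.le, mul_nonneg (sub_nonneg.2 h2') hm.le]
      exact (sq_abs _).symm.le.trans (pow_le_pow_left₀ (abs_nonneg _) h5 2)
    have e3 : ‖L n - L m‖ ^ 2 ≤ (((n : ℝ) + 1)⁻¹ + ((m : ℝ) + 1)⁻¹) ^ 2 := by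
      refine (cm_norm_sq_le _).trans ?_
      rw [e0, e1]
      refine (norm_mul_le _ _).trans ?_
      rw [norm_star, ← sq]
      exact pow_le_pow_left₀ (norm_nonneg _) e2 2
    exact le_of_sq_le_sq e3 (by positivity)
  have hlim0 : Tendsto (fun n : ℕ => ((n : ℝ) + 1)⁻¹) atTop (𝓝 0) := by
    have := tendsto_one_div_add_atTop_nhds_zero_nat (𝕜 := ℝ)
    simpa [one_div] using this
  obtain ⟨M, hM⟩ : ∃ M, Tendsto L atTop (𝓝 M) := by
    refine cauchySeq_tendsto_of_complete (cauchySeq_of_le_tendsto_0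
      (fun n : ℕ => 2 * ((n : ℝ) + 1)⁻¹) (fun n m N hn hm => ?_) ?_)
    · rw [dist_eq_norm]
      refine (hdist n m).trans ?_
      have h1 : ((n : ℝ) + 1)⁻¹ ≤ ((N : ℝ) + 1)⁻¹ := by
        have : (N : ℝ) ≤ n := by exact_mod_cast hn
        gcongr
      have h2 : ((m : ℝ) + 1)⁻¹ ≤ ((N : ℝ) + 1)⁻¹ := by
        have : (N : ℝ) ≤ m := by exact_mod_cast hm
        gcongr
      linarith
    · simpa using hlim0.const_mul 2
  have hM0 : Tendsto (fun n => ‖L n - M‖) atTop (𝓝 0) := tendsto_iff_norm_sub_tendsto_zero.1 hM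
  refine ⟨M, ?_, fun f hf => ?_⟩
  · -- `M M* = P`
    have h1 : Tendsto (fun n => L n * (L n).conjTranspose) atTop (𝓝 (M * M.conjTranspose)) := by
      rw [tendsto_iff_norm_sub_tendsto_zero]
      have hn : Tendsto (fun n => ‖L n‖) atTop (𝓝 ‖M‖) := hM.norm
      have hb : Tendsto (fun n => ‖L n - M‖ * ‖L n‖ + ‖M‖ * ‖L n - M‖) atTop (𝓝 0) := by
        have := (hM0.mul hn).add (hM0.const_mul ‖M‖)
        simpa using this
      refine squeeze_zero (fun _ => norm_nonneg _) (fun n => ?_) hb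
      have e : L n * (L n).conjTranspose - M * M.conjTranspose =
          (L n - M) * (L n).conjTranspose + M * (L n - M).conjTranspose := by
        rw [cm_sub_mul, cm_conj_sub, cm_mul_sub]
        abel
      rw [e]
      refine (norm_add_le _ _).trans (add_le_add ?_ ?_)
      · exact (cm_norm_mul_le _ _).trans (by rw [cm_norm_conj])
      · exact (cm_norm_mul_le _ _).trans (by rw [cm_norm_conj])
    have h2 : Tendsto (fun n => s * cfc (fun t => kf n t * Real.sqrt t) Q) atTop (𝓝 s) := by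
      rw [tendsto_iff_norm_sub_tendsto_zero]
      refine squeeze_zero (fun _ => norm_nonneg _) (fun n => ?_) hlim0
      have hkc : Continuous fun t => kf n t * Real.sqrt t := (kf_cont n).mul Real.continuous_sqrt
      have e : s * cfc (fun t => kf n t * Real.sqrt t) Q - s =
          s * cfc (fun t => kf n t * Real.sqrt t - 1) Q := by
        rw [cfc_sub (fun t => kf n t * Real.sqrt t) (fun _ => (1 : ℝ)) Q hkc.continuousOn
          continuousOn_const, mul_sub, cfc_const_one ℝ Q, mul_one]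
      rw [e]
      refine hkey (fun t => kf n t * Real.sqrt t - 1) (hkc.sub continuous_const) _
        (by positivity) fun t ht => ?_
      obtain ⟨θ, h1, h2, h3⟩ := kf_bound n t ht
      have h4 : (kf n t * Real.sqrt t - 1) * t * (kf n t * Real.sqrt t - 1) =
          (kf n t * t - Real.sqrt t) ^ 2 := by
        have := Real.mul_self_sqrt ht
        calc _ = (kf n t * Real.sqrt t - 1) ^ 2 * t := by ring
          _ = (kf n t * Real.sqrt t - 1) ^ 2 * (Real.sqrt t * Real.sqrt t) := by rw [this]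
          _ = (kf n t * (Real.sqrt t * Real.sqrt t) - Real.sqrt t) ^ 2 := by ring
          _ = _ := by rw [this]
      rw [h4, h3]
      have h5 : (Real.sqrt t - θ * ((n : ℝ) + 1)⁻¹ - Real.sqrt t) ^ 2 =
          θ ^ 2 * (((n : ℝ) + 1)⁻¹) ^ 2 := by ring
      rw [h5]
      have h6 : θ ^ 2 ≤ 1 := pow_le_one₀ h1 h2
      have h7 : 0 ≤ (((n : ℝ) + 1)⁻¹) ^ 2 := by positivity
      nlinarith
    have h3 : Tendsto (fun n => (s * cfc (fun t => kf n t * Real.sqrt t) Q) *
        star (s * cfc (fun t => kf n t * Real.sqrt t) Q)) atTop (𝓝 (s * star s)) :=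
      h2.mul ((continuous_star.tendsto s).comp h2)
    have h4 : (fun n => L n * (L n).conjTranspose) =
        fun n => (s * cfc (fun t => kf n t * Real.sqrt t) Q) *
          star (s * cfc (fun t => kf n t * Real.sqrt t) Q) := by
      funext n
      exact hX (kf n) (kf_cont n)
    rw [h4] at h1
    have h5 := tendsto_nhds_unique h1 h3
    have hsa : star s = s := hs
    rw [h5, hsa, hss]
  · -- `M f = M`
    have h1 : ∀ n, L n * f = L n := by
      intro n
      simp only [hL]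
      rw [cm_assoc, hf]
    have h2 : Tendsto (fun n => L n * f) atTop (𝓝 (M * f)) := by
      rw [tendsto_iff_norm_sub_tendsto_zero]
      have hb : Tendsto (fun n => ‖L n - M‖ * ‖f‖) atTop (𝓝 0) := by
        simpa using hM0.mul_const ‖f‖
      refine squeeze_zero (fun _ => norm_nonneg _) (fun n => ?_) hb
      rw [← cm_sub_mul]
      exact cm_norm_mul_le _ _
    have h3 : (fun n => L n * f) = L := funext h1
    rw [h3] at h2
    exact tendsto_nhds_unique h2 hM

end RC
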